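import Mathlib
import Pool.Agent.DihedralVol.Example

open Pool.Agent.DihedralVol

namespace Pool.Agent.Results.MP_459b8e_gt.LargerAnglesLargerVolume

/-- **Pairwise larger dihedral angles do not force a smaller volume.**
There are compact convex polyhedra `P`, `Q` in hyperbolic 3-space, each with nonempty interior and
each presented by `5` closed halfspaces none of which is redundant, such that for all `i < j` the
measure of the dihedral angle formed by the halfspaces `i` and `j` of `Q` is strictly larger than
the one for `P`, and still `vol P < vol Q < ∞`. -/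
theorem result : ∃ P Q : Fin 5 → Halfspace,
    IsPolyhedron P ∧ IsPolyhedron Q ∧
    (∀ i j, i < j → dihedral (P i) (P j) < dihedral (Q i) (Q j)) ∧
    hvol (poly P) < hvol (poly Q) ∧ hvol (poly Q) < ⊤ :=
  ⟨P, Q, isPolyhedron_P, isPolyhedron_Q, dihedral_PQ, hvol_lt, hvol_Q_lt_top⟩

end Pool.Agent.Results.MP_459b8e_gt.LargerAnglesLargerVolume
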